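import Pool.Agent.L9.OddDeg

/-! # MP_326854_nt: elliptic curves with a 5-isogeny over totally real fields of odd degree (helper9)

Let `F` be a totally real field and `W` an elliptic curve over `F` with a subgroup of order 5 stable
under the Galois group of `F`.

* At a prime `P` whose norm is an odd power of 3, the order of the `j`-invariant of `W` is at most 0:
  `W` has potentially ordinary or potentially multiplicative reduction at `P`.
* Suppose that `√5` is not in `F`, that `W` has no subgroup of order 3 stable under the Galois group
  of `F`, but has one which is stable under the Galois group of `F(√δ)`, where `δ` is a nonzero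
  element of `F` which is a square in the completions of `F` at all the primes above 3 (that is, all
  these primes split in `F(√δ)`). Then the norm of `δ` is positive. In particular, if the
  degree of `F` is odd, `F(√δ)` is not a CM field: `W[3]` is not induced from a CM field in which
  all primes above 3 split.

With theorems of Thorne (residual characteristic 5), of Wiles, Kisin, Freitas, Le Hung and Siksek
(residual characteristic 3) and of Skinner and Wiles (nearly ordinary representations), all
elliptic curves over `F` are modular when `F` is an abelian field of odd degree with only one prime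
above 3. Nothing is assumed on class numbers, units or ramification. -/

namespace Pool.Agent.Results.MP_326854_nt.OddDegree

open NumberField WeierstrassCurve WeierstrassCurve.Affine IsDedekindDomain

open scoped Classical in
theorem result {F : Type*} [Field F] [NumberField F] [IsTotallyReal F]
    (W : WeierstrassCurve F) [W.IsElliptic]
    (h5 : ∃ C : AddSubgroup (W⁄(AlgebraicClosure F)).Point, Nat.card C = 5 ∧
      ∀ σ : AlgebraicClosure F ≃ₐ[F] AlgebraicClosure F,
        C.map (Point.map (W' := W) (σ : AlgebraicClosure F →ₐ[F] AlgebraicClosure F)) = C) :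
    (∀ P : HeightOneSpectrum (𝓞 F), (∃ k : ℕ, Odd k ∧ Ideal.absNorm P.asIdeal = 3 ^ k) →
      1 ≤ P.valuation F W.j) ∧
    ((∀ s : F, s ^ 2 ≠ 5) →
      (¬ ∃ C : AddSubgroup (W⁄(AlgebraicClosure F)).Point, Nat.card C = 3 ∧
        ∀ σ : AlgebraicClosure F ≃ₐ[F] AlgebraicClosure F,
          C.map (Point.map (W' := W) (σ : AlgebraicClosure F →ₐ[F] AlgebraicClosure F)) = C) →
      ∀ δ : F, δ ≠ 0 →
        (∀ P : HeightOneSpectrum (𝓞 F), (3 : 𝓞 F) ∈ P.asIdeal →
          ∃ a : F, P.valuation F (δ - a ^ 2) < P.valuation F δ) →
        (∃ C : AddSubgroup (W⁄(AlgebraicClosure F)).Point, Nat.card C = 3 ∧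
          ∀ σ : AlgebraicClosure F ≃ₐ[F] AlgebraicClosure F,
            (∀ z : AlgebraicClosure F, z ^ 2 = algebraMap F (AlgebraicClosure F) δ → σ z = z) →
            C.map (Point.map (W' := W) (σ : AlgebraicClosure F →ₐ[F] AlgebraicClosure F)) = C) →
        0 < Algebra.norm ℚ δ) :=
  ⟨(Pool.Agent.L9.main W h5).1, fun hs h3 _ hδ hsplit hC =>
    Pool.Agent.L9.norm_pos hs W h5 h3 hδ hsplit hC⟩

end Pool.Agent.Results.MP_326854_nt.OddDegree
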