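import Pool.Agent.L9.PotGood

/-! # MP_326854_nt: elliptic curves with potentially good reduction at a prime of small norm
(helper9, helper94, helper83, helper55, helper57, helper61, helper42)

Let `F` be a totally real field and `W` an elliptic curve over `F` with a subgroup of order 5 stable
under the Galois group of `F`. Consider the conditions

* (a) any two elements of the Galois group of `F(√-3)` commute on `W[3]`;
* (b) the Galois group of `F(ζ₇)` preserves some subgroup of order 7 of `W`, or any two of its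
  elements commute on `W[7]`.

Let `P` be a prime of `F`, of norm `N`, and `v` the order of the `j`-invariant of `W` at `P`.

* If `N` is an odd power of 7, `v ≤ 0` and the order of `j - 1728` at `P` is at most 0.
* Under (a), `v ≤ 0` if `N` is an odd power of 2, and `v < 0` if `N = 2` or `N = 8`.
* Under (b), `v < 0` if `N = 3` or `N = 13`.
* Under (a) and (b), `v < 0` if `N = 47`, and `v ≠ 0` if `N = 5` and `P` is unramified over 5; if
  moreover `W` has a subgroup of order 7 stable under the Galois group of `F`, then `v < 0`.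

If `√5` is not in `F`, which is automatic if there is such a prime `P`, then a curve which is not
modular satisfies all the hypotheses (theorems of Thorne, and of Wiles, Kisin, Freitas, Le Hung and
Siksek). So every elliptic curve over any totally real field which has potentially good reduction
at a prime of norm 2, 3, 8, 13 or 47 is modular. -/

namespace Pool.Agent.Results.MP_326854_nt.PotentiallyGood

open NumberField WeierstrassCurve WeierstrassCurve.Affine IsDedekindDomain

open scoped Classical in
theorem result {F : Type*} [Field F] [NumberField F] [IsTotallyReal F]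
    (W : WeierstrassCurve F) [W.IsElliptic]
    (h5 : ∃ C : AddSubgroup (W⁄(AlgebraicClosure F)).Point, Nat.card C = 5 ∧
      ∀ σ : AlgebraicClosure F ≃ₐ[F] AlgebraicClosure F,
        C.map (Point.map (W' := W) (σ : AlgebraicClosure F →ₐ[F] AlgebraicClosure F)) = C)
    (P : HeightOneSpectrum (𝓞 F)) :
    ((∃ k : ℕ, Odd k ∧ Ideal.absNorm P.asIdeal = 7 ^ k) →
      1 ≤ P.valuation F W.j ∧ 1 ≤ P.valuation F (W.j - 1728)) ∧
    ((∀ σ τ : AlgebraicClosure F ≃ₐ[F] AlgebraicClosure F,
        (∀ z : AlgebraicClosure F, z ^ 2 = -3 → σ z = z ∧ τ z = z) →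
        ∀ R : (W⁄(AlgebraicClosure F)).Point, 3 • R = 0 →
          Point.map (W' := W) (σ : AlgebraicClosure F →ₐ[F] AlgebraicClosure F)
            (Point.map (W' := W) (τ : AlgebraicClosure F →ₐ[F] AlgebraicClosure F) R) =
          Point.map (W' := W) (τ : AlgebraicClosure F →ₐ[F] AlgebraicClosure F)
            (Point.map (W' := W) (σ : AlgebraicClosure F →ₐ[F] AlgebraicClosure F) R)) →
      ((∃ k : ℕ, Odd k ∧ Ideal.absNorm P.asIdeal = 2 ^ k) → 1 ≤ P.valuation F W.j) ∧
      (Ideal.absNorm P.asIdeal = 2 ∨ Ideal.absNorm P.asIdeal = 8 → 1 < P.valuation F W.j)) ∧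
    (((∃ C : AddSubgroup (W⁄(AlgebraicClosure F)).Point, Nat.card C = 7 ∧
        ∀ σ : AlgebraicClosure F ≃ₐ[F] AlgebraicClosure F,
          (∀ z : AlgebraicClosure F, z ^ 7 = 1 → σ z = z) →
          C.map (Point.map (W' := W) (σ : AlgebraicClosure F →ₐ[F] AlgebraicClosure F)) = C) ∨
      ∀ σ τ : AlgebraicClosure F ≃ₐ[F] AlgebraicClosure F,
        (∀ z : AlgebraicClosure F, z ^ 7 = 1 → σ z = z ∧ τ z = z) →
        ∀ R : (W⁄(AlgebraicClosure F)).Point, 7 • R = 0 →
          Point.map (W' := W) (σ : AlgebraicClosure F →ₐ[F] AlgebraicClosure F)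
            (Point.map (W' := W) (τ : AlgebraicClosure F →ₐ[F] AlgebraicClosure F) R) =
          Point.map (W' := W) (τ : AlgebraicClosure F →ₐ[F] AlgebraicClosure F)
            (Point.map (W' := W) (σ : AlgebraicClosure F →ₐ[F] AlgebraicClosure F) R)) →
      (Ideal.absNorm P.asIdeal = 3 ∨ Ideal.absNorm P.asIdeal = 13 → 1 < P.valuation F W.j)) ∧
    ((∀ σ τ : AlgebraicClosure F ≃ₐ[F] AlgebraicClosure F,
        (∀ z : AlgebraicClosure F, z ^ 2 = -3 → σ z = z ∧ τ z = z) →
        ∀ R : (W⁄(AlgebraicClosure F)).Point, 3 • R = 0 →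
          Point.map (W' := W) (σ : AlgebraicClosure F →ₐ[F] AlgebraicClosure F)
            (Point.map (W' := W) (τ : AlgebraicClosure F →ₐ[F] AlgebraicClosure F) R) =
          Point.map (W' := W) (τ : AlgebraicClosure F →ₐ[F] AlgebraicClosure F)
            (Point.map (W' := W) (σ : AlgebraicClosure F →ₐ[F] AlgebraicClosure F) R)) →
      ((∃ C : AddSubgroup (W⁄(AlgebraicClosure F)).Point, Nat.card C = 7 ∧
        ∀ σ : AlgebraicClosure F ≃ₐ[F] AlgebraicClosure F,
          (∀ z : AlgebraicClosure F, z ^ 7 = 1 → σ z = z) →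
          C.map (Point.map (W' := W) (σ : AlgebraicClosure F →ₐ[F] AlgebraicClosure F)) = C) ∨
      ∀ σ τ : AlgebraicClosure F ≃ₐ[F] AlgebraicClosure F,
        (∀ z : AlgebraicClosure F, z ^ 7 = 1 → σ z = z ∧ τ z = z) →
        ∀ R : (W⁄(AlgebraicClosure F)).Point, 7 • R = 0 →
          Point.map (W' := W) (σ : AlgebraicClosure F →ₐ[F] AlgebraicClosure F)
            (Point.map (W' := W) (τ : AlgebraicClosure F →ₐ[F] AlgebraicClosure F) R) =
          Point.map (W' := W) (τ : AlgebraicClosure F →ₐ[F] AlgebraicClosure F)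
            (Point.map (W' := W) (σ : AlgebraicClosure F →ₐ[F] AlgebraicClosure F) R)) →
      (Ideal.absNorm P.asIdeal = 47 → 1 < P.valuation F W.j) ∧
      (Ideal.absNorm P.asIdeal = 5 → (5 : 𝓞 F) ∉ P.asIdeal ^ 2 → P.valuation F W.j ≠ 1 ∧
        ((∃ C : AddSubgroup (W⁄(AlgebraicClosure F)).Point, Nat.card C = 7 ∧
        ∀ σ : AlgebraicClosure F ≃ₐ[F] AlgebraicClosure F,
          C.map (Point.map (W' := W) (σ : AlgebraicClosure F →ₐ[F] AlgebraicClosure F)) = C) → 1 < P.valuation F W.j))) :=
  Pool.Agent.L9.pot_good W h5 P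

end Pool.Agent.Results.MP_326854_nt.PotentiallyGood
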