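import Pool.Agent.M7.Final

/-! # MP_326854_nt: elliptic curves whose mod 7 representation is not absolutely irreducible over
`F(ζ₇)` (helper33)

Let `F` be a totally real field of odd narrow class number in which `(7)` is an odd power of a prime
ideal and which does not contain the cubic subfield of the seventh roots of unity (generated by a
root of `x³ + x² - 2 x - 1`). Let `W` be an elliptic curve over `F` such that `W[7]` is not
absolutely irreducible as a representation of the Galois group of `F(ζ₇)`: this group preserves a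
subgroup of order 7, or any two of its elements commute on `W[7]`.

Then `W` has a subgroup of order 7 stable under the Galois group of `F`, or its `j`-invariant is 0,
1728 or 2268945/128.

If moreover `(3)` is an odd power of a prime ideal and `W[3]` is not absolutely irreducible as a
representation of the Galois group of `F(√-3)` (any two of its elements commute on `W[3]`), then the
`j`-invariant of `W` is one of seven rational numbers, or `-58982400 + 26378240 s` with `s² = 5`,
`s` in `F` (complex multiplication by the maximal order of discriminant -35).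

By theorems of Wiles, Kisin, Freitas, Le Hung and Siksek (lifting at 3 and 7), and Dieulefait (base
change), every elliptic curve over `F` without a 7-isogeny over `F` is modular, and if `(3)` is an
odd power of a prime then every elliptic curve over `F` is modular. -/

namespace Pool.Agent.Results.MP_326854_nt.PrimeSeven

open NumberField WeierstrassCurve WeierstrassCurve.Affine

open scoped Classical in
theorem result {F : Type*} [Field F] [NumberField F] [IsTotallyReal F]
    (hclass : Odd (classNumber F))
    (hunits : ∀ u : (𝓞 F)ˣ, (∀ φ : F →+* ℝ, 0 < φ (algebraMap (𝓞 F) F u)) → IsSquare u)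
    (h7 : ∃ P : Ideal (𝓞 F), P.IsPrime ∧ ∃ k : ℕ, Odd k ∧ Ideal.span {(7 : 𝓞 F)} = P ^ k)
    (hcub : ∀ x : F, x ^ 3 + x ^ 2 - 2 * x - 1 ≠ 0)
    (W : WeierstrassCurve F) [W.IsElliptic]
    (hirr : (∃ C : AddSubgroup (W⁄(AlgebraicClosure F)).Point, Nat.card C = 7 ∧
        ∀ σ : AlgebraicClosure F ≃ₐ[F] AlgebraicClosure F,
          (∀ z : AlgebraicClosure F, z ^ 7 = 1 → σ z = z) →
          C.map (Point.map (W' := W) (σ : AlgebraicClosure F →ₐ[F] AlgebraicClosure F)) = C) ∨
      ∀ σ τ : AlgebraicClosure F ≃ₐ[F] AlgebraicClosure F,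
        (∀ z : AlgebraicClosure F, z ^ 7 = 1 → σ z = z ∧ τ z = z) →
        ∀ R : (W⁄(AlgebraicClosure F)).Point, 7 • R = 0 →
          Point.map (W' := W) (σ : AlgebraicClosure F →ₐ[F] AlgebraicClosure F)
            (Point.map (W' := W) (τ : AlgebraicClosure F →ₐ[F] AlgebraicClosure F) R) =
          Point.map (W' := W) (τ : AlgebraicClosure F →ₐ[F] AlgebraicClosure F)
            (Point.map (W' := W) (σ : AlgebraicClosure F →ₐ[F] AlgebraicClosure F) R)) :
    ((∃ C : AddSubgroup (W⁄(AlgebraicClosure F)).Point, Nat.card C = 7 ∧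
        ∀ σ : AlgebraicClosure F ≃ₐ[F] AlgebraicClosure F,
          C.map (Point.map (W' := W) (σ : AlgebraicClosure F →ₐ[F] AlgebraicClosure F)) = C) ∨
      W.j = 0 ∨ W.j = 1728 ∨ W.j = 2268945 / 128) ∧
    ((∃ P : Ideal (𝓞 F), P.IsPrime ∧ ∃ k : ℕ, Odd k ∧ Ideal.span {(3 : 𝓞 F)} = P ^ k) →
      (∀ σ τ : AlgebraicClosure F ≃ₐ[F] AlgebraicClosure F,
        (∀ z : AlgebraicClosure F, z ^ 2 = -3 → σ z = z ∧ τ z = z) →
        ∀ R : (W⁄(AlgebraicClosure F)).Point, 3 • R = 0 →
          Point.map (W' := W) (σ : AlgebraicClosure F →ₐ[F] AlgebraicClosure F)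
            (Point.map (W' := W) (τ : AlgebraicClosure F →ₐ[F] AlgebraicClosure F) R) =
          Point.map (W' := W) (τ : AlgebraicClosure F →ₐ[F] AlgebraicClosure F)
            (Point.map (W' := W) (σ : AlgebraicClosure F →ₐ[F] AlgebraicClosure F) R)) →
      W.j = 0 ∨ W.j = 1728 ∨ W.j = 2268945 / 128 ∨ W.j = 3375 / 2 ∨ W.j = -140625 / 8 ∨
        W.j = -1159088625 / 2097152 ∨ W.j = -189613868625 / 128 ∨
        ∃ s : F, s ^ 2 = 5 ∧ W.j = -58982400 + 26378240 * s) :=
  Pool.Agent.M7.main hclass hunits h7 hcub W hirr

end Pool.Agent.Results.MP_326854_nt.PrimeSeven
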