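import Pool.Agent.L9.Seven
import Pool.Agent.L9.UnrC

/-! # MP_326854_nt: isogenies of degree 5 and 7 (helper9, with helper81, 57 and 61)

Let `F` be a totally real field which does not contain `√5`. Suppose that some prime `Q` of `F`
above 7 is unramified, or has norm an odd power of 7 and odd ramification index prime to 3. Let
`W` be an elliptic curve over `F` with a subgroup of order 5 stable under the Galois group of `F`,
such that `W[7]` is not absolutely irreducible as a representation of the Galois group of `F(ζ₇)`: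
the modularity theorems of Thorne and of Wiles, Kisin, Freitas, Le Hung and Siksek at 5 and 7 do
not apply to `W`. Then:

* (1) `W` has a subgroup of order 7 stable under the Galois group of `F`: the modular curves
  `X(d7)` and `X(e7)` of Freitas, Le Hung and Siksek do not matter.
* (2) If also `W[3]` is not absolutely irreducible as a representation of the Galois group of
  `F(√-3)`, then the order of `j` is at most 0 at every prime that is unramified above 3.
* (3) If `W` has no subgroup of order 3 stable under the Galois group of `F`, but one that is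
  stable under the automorphisms that fix `√δ`, where `δ` is a nonzero element of `F`, then the
  extension `F(√δ)/F` is unramified at every prime `w` that is not above 3 and is not above 7 or
  has norm an odd power of 7. This is stated in the form: up to squares `δ` is the discriminant of
  a quadratic polynomial with `w`-integral coefficients whose discriminant is a unit at `w` (a
  prime `w` above 2 is allowed). -/

namespace Pool.Agent.Results.MP_326854_nt.SevenIsogeny

open NumberField WeierstrassCurve WeierstrassCurve.Affine IsDedekindDomain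

open scoped Classical in
theorem result {F : Type*} [Field F] [NumberField F] [IsTotallyReal F]
    (hs : ∀ s : F, s ^ 2 ≠ 5)
    (hQ : ∃ (Q : HeightOneSpectrum (𝓞 F)) (e : ℕ), (7 : 𝓞 F) ∈ Q.asIdeal ^ e ∧
      (7 : 𝓞 F) ∉ Q.asIdeal ^ (e + 1) ∧ (e = 1 ∨
        Odd e ∧ ¬ 3 ∣ e ∧ ∃ k : ℕ, Odd k ∧ Ideal.absNorm Q.asIdeal = 7 ^ k))
    (W : WeierstrassCurve F) [W.IsElliptic]
    (h5 : ∃ C : AddSubgroup (W⁄(AlgebraicClosure F)).Point, Nat.card C = 5 ∧
      ∀ σ : AlgebraicClosure F ≃ₐ[F] AlgebraicClosure F,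
        C.map (Point.map (W' := W) (σ : AlgebraicClosure F →ₐ[F] AlgebraicClosure F)) = C)
    (h7 : (∃ C : AddSubgroup (W⁄(AlgebraicClosure F)).Point, Nat.card C = 7 ∧
        ∀ σ : AlgebraicClosure F ≃ₐ[F] AlgebraicClosure F,
          (∀ z : AlgebraicClosure F, z ^ 7 = 1 → σ z = z) →
          C.map (Point.map (W' := W) (σ : AlgebraicClosure F →ₐ[F] AlgebraicClosure F)) = C) ∨
      ∀ σ τ : AlgebraicClosure F ≃ₐ[F] AlgebraicClosure F,
        (∀ z : AlgebraicClosure F, z ^ 7 = 1 → σ z = z ∧ τ z = z) →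
        ∀ R : (W⁄(AlgebraicClosure F)).Point, 7 • R = 0 →
          Point.map (W' := W) (σ : AlgebraicClosure F →ₐ[F] AlgebraicClosure F)
            (Point.map (W' := W) (τ : AlgebraicClosure F →ₐ[F] AlgebraicClosure F) R) =
          Point.map (W' := W) (τ : AlgebraicClosure F →ₐ[F] AlgebraicClosure F)
            (Point.map (W' := W) (σ : AlgebraicClosure F →ₐ[F] AlgebraicClosure F) R)) :
    (∃ C : AddSubgroup (W⁄(AlgebraicClosure F)).Point, Nat.card C = 7 ∧
      ∀ σ : AlgebraicClosure F ≃ₐ[F] AlgebraicClosure F,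
        C.map (Point.map (W' := W) (σ : AlgebraicClosure F →ₐ[F] AlgebraicClosure F)) = C) ∧
    ((∀ σ τ : AlgebraicClosure F ≃ₐ[F] AlgebraicClosure F,
        (∀ z : AlgebraicClosure F, z ^ 2 = -3 → σ z = z ∧ τ z = z) →
        ∀ R : (W⁄(AlgebraicClosure F)).Point, 3 • R = 0 →
          Point.map (W' := W) (σ : AlgebraicClosure F →ₐ[F] AlgebraicClosure F)
            (Point.map (W' := W) (τ : AlgebraicClosure F →ₐ[F] AlgebraicClosure F) R) =
          Point.map (W' := W) (τ : AlgebraicClosure F →ₐ[F] AlgebraicClosure F)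
            (Point.map (W' := W) (σ : AlgebraicClosure F →ₐ[F] AlgebraicClosure F) R)) →
      ∀ P : HeightOneSpectrum (𝓞 F), (3 : 𝓞 F) ∈ P.asIdeal → (3 : 𝓞 F) ∉ P.asIdeal ^ 2 →
        1 ≤ P.valuation F W.j) ∧
    ((¬ ∃ C : AddSubgroup (W⁄(AlgebraicClosure F)).Point, Nat.card C = 3 ∧
        ∀ σ : AlgebraicClosure F ≃ₐ[F] AlgebraicClosure F,
          C.map (Point.map (W' := W) (σ : AlgebraicClosure F →ₐ[F] AlgebraicClosure F)) = C) →
      ∀ δ : F, δ ≠ 0 →
      (∃ C : AddSubgroup (W⁄(AlgebraicClosure F)).Point, Nat.card C = 3 ∧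
        ∀ σ : AlgebraicClosure F ≃ₐ[F] AlgebraicClosure F,
          (∀ z : AlgebraicClosure F, z ^ 2 = algebraMap F (AlgebraicClosure F) δ → σ z = z) →
          C.map (Point.map (W' := W) (σ : AlgebraicClosure F →ₐ[F] AlgebraicClosure F)) = C) →
      ∀ w : HeightOneSpectrum (𝓞 F), (3 : 𝓞 F) ∉ w.asIdeal →
        ((7 : 𝓞 F) ∉ w.asIdeal ∨ ∃ k : ℕ, Odd k ∧ Ideal.absNorm w.asIdeal = 7 ^ k) →
        ∃ x y q : F, w.valuation F x ≤ 1 ∧ w.valuation F y ≤ 1 ∧
          w.valuation F (x ^ 2 - 4 * y) = 1 ∧ q ≠ 0 ∧ δ * (x ^ 2 - 4 * y) = q ^ 2) := by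
  have hB := (Pool.Agent.L9.main7 W h5).2 hs hQ h7
  exact ⟨hB.1, hB.2, fun h3 _ hδ hC3 w hw3 hw7 =>
    Pool.Agent.L9.main_unr hs W h5 hB.1 h3 hδ hC3 w hw3 hw7⟩

end Pool.Agent.Results.MP_326854_nt.SevenIsogeny
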